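import Pool.Agent.K4H30.FN.Trace

/-!
MP_0e0306_pr: for every Hurst parameter `0 < H ≤ 1/2` the two families of traces of Q1 are bounded,
by absolute constants: `-1 ≤ Tr(A_k) ≤ 0` and `-2 ≤ Tr(A_k A_l) ≤ 1`.

`gam H j` is the autocovariance `γ_H(j)`, `Sig H M` the covariance matrix of `M` consecutive unit
increments, `Pk N k` the `N × 2N` matrix `(0_{N×k}, I_N, 0_{N×(N-k)})` and
`A H N k = (Sig H N)⁻¹ (Pk N k) (Sig H (2N)) (Pk N 0)ᵀ`.
-/

namespace Pool.Agent.K4H30.Retired.HurstAtMostHalf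

open Pool.Agent.K4H30.FN

theorem result (H : ℝ) (h0 : 0 < H) (h1 : H ≤ 1 / 2) (N k l : ℕ)
    (hk1 : 1 ≤ k) (hk : k ≤ N) (hl1 : 1 ≤ l) (hl : l ≤ N) :
    IsUnit (Sig H N) ∧
    (-1 ≤ (A H N k).trace ∧ (A H N k).trace ≤ 0) ∧
    (-2 ≤ (A H N k * A H N l).trace ∧ (A H N k * A H N l).trace ≤ 1) := by
  refine ⟨sig_isUnit h0 h1 N, ⟨?_, ?_⟩, trace_mul h0 h1 hk1 hk hl1 hl⟩
  · rw [trace_A h0 h1 hk1 hk]
    linarith [sum_diag h0 h1 N k]
  · rw [trace_A h0 h1 hk1 hk]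
    have : 0 ≤ ∑ j ∈ Finset.range N, (if j < k then U H N (k - j) j else 0) := by
      apply Finset.sum_nonneg
      intro j _
      split_ifs with h
      · exact U_nonneg h0 h1 N (by omega) j
      · exact le_rfl
    linarith

end Pool.Agent.K4H30.Retired.HurstAtMostHalf
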